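import Pool.Agent.W822.ResLong

set_option autoImplicit false

open MeasureTheory ProbabilityTheory

namespace Pool.Agent.Results.MP_9b88e3_pr.DirectionDependent

open Pool.Agent.W822.FPP

/-- The almost-sure longitudinal exponent of first-passage percolation on `ℤ²` depends on the
direction: for some law `F` on `(0,∞)` with all exponential moments it is `0` in the direction
`(1,1)/√2` and at least `1/50` in another direction. -/
theorem result : ∃ F : Measure ℝ, IsProbabilityMeasure F ∧ F (Set.Iic 0) = 0 ∧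
    (∀ γ : ℝ, Integrable (fun t => Real.exp (γ * t)) F) ∧
    IsTimeConstant F (Real.sqrt 2 / 2, Real.sqrt 2 / 2) (Real.sqrt 2) ∧
    chiLong F (Real.sqrt 2 / 2, Real.sqrt 2 / 2) (Real.sqrt 2) = 0 ∧
    ∃ y : ℝ × ℝ, y.1 ^ 2 + y.2 ^ 2 = 1 ∧ ∃ ν : ℝ, 0 < ν ∧ IsTimeConstant F y ν ∧
      ((1 / 50 : ℝ) : EReal) ≤ chiLong F y ν :=
  final_long

end Pool.Agent.Results.MP_9b88e3_pr.DirectionDependent
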